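import Pool.Agent.EDX.Stmts1

/-!
# Squad EDX (MP_74088a_nt), row MAX: a maximiser exists
-/

set_option autoImplicit false

namespace Pool.Agent.EDX.H28

open Polynomial Finset Pool.Agent.EDG Pool.Agent.EDX Module

/-- **Row MAX.** -/
theorem max_ : MaxStmt := by
  intro k₀ K A _ _ _ _ _ _ m c r hc
  set N : ℕ := finrank k₀ A with hN
  set M : ℕ := ⌊(N : ℝ) / c⌋₊ with hM
  have hle : ∀ Ξ : K[X], finrank k₀ (LL m Ξ r) ≤ N := fun Ξ => Submodule.finrank_le _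
  set S : Set (ℕ × ℕ) := {p | ∃ Ξ : K[X], Ξ ≠ 0 ∧ finrank k₀ (LL m Ξ r) = p.1 ∧
    Ξ.natDegree = p.2 ∧ p.2 ≤ M} with hS
  have hfin : S.Finite := by
    refine Set.Finite.subset ((Finset.range (N + 1) ×ˢ Finset.range (M + 1)).finite_toSet) ?_
    rintro ⟨d, k⟩ ⟨Ξ, -, h1, -, h3⟩
    have h4 := hle Ξ
    rw [h1] at h4
    simp only [Finset.coe_product, Set.mem_prod, Finset.coe_range, Set.mem_Iio]
    simp only at h3 h4
    exact ⟨by omega, by omega⟩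
  have h1S : (finrank k₀ (LL m (1 : K[X]) r), 0) ∈ S :=
    ⟨1, one_ne_zero, rfl, natDegree_one, Nat.zero_le _⟩
  obtain ⟨⟨d, k⟩, hdk, hmax⟩ := Set.exists_max_image S
    (fun p : ℕ × ℕ => (p.1 : ℝ) - c * (p.2 : ℝ)) hfin ⟨_, h1S⟩
  obtain ⟨Φ, hΦ0, hd, hk, -⟩ := hdk
  simp only at hd hk hmax
  have h0 : (0 : ℝ) ≤ (d : ℝ) - c * (k : ℝ) := by
    have := hmax _ h1S
    simp only [Nat.cast_zero, mul_zero, sub_zero] at this
    exact (Nat.cast_nonneg _).trans this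
  refine ⟨Φ, ⟨hΦ0, ?_⟩, ?_⟩
  · intro Ξ hΞ
    rw [hd, hk]
    rcases le_or_gt Ξ.natDegree M with hle' | hgt
    · exact hmax (finrank k₀ (LL m Ξ r), Ξ.natDegree) ⟨Ξ, hΞ, rfl, rfl, hle'⟩
    · have h2 : (N : ℝ) / c < (Ξ.natDegree : ℝ) := (Nat.floor_lt' (by omega)).1 hgt
      rw [div_lt_iff₀ hc] at h2
      have h3 : (finrank k₀ (LL m Ξ r) : ℝ) ≤ N := by exact_mod_cast hle Ξ
      linarith
  · rw [hk]
    have h3 : (d : ℝ) ≤ N := by
      rw [← hd]; exact_mod_cast hle Φ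
    linarith

end Pool.Agent.EDX.H28
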