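import Pool.Agent.EDX.Stmts4

/-!
# Squad EDX (MP_74088a_nt), row QZ0
-/

set_option autoImplicit false

namespace Pool.Agent.EDX.H28

open Polynomial Finset Pool.Agent.EDG Pool.Agent.EDX Module Filter

/-- **Row QZ0.** -/
theorem qz0 : Qz0Stmt := by
  intro δ hδ
  have hl : 0 < Real.log 2 := Real.log_pos (by norm_num)
  have hc : 0 < δ * Real.log 2 / 72000 := by positivity
  have h1 := Real.isLittleO_log_id_atTop.def hc
  have ht : Tendsto (fun q : ℕ => (36000 : ℝ) * ((q : ℝ) + 1)) atTop atTop :=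
    (tendsto_atTop_add_const_right _ 1 tendsto_natCast_atTop_atTop).const_mul_atTop
      (by norm_num)
  obtain ⟨q, hq, hq1⟩ := ((ht.eventually h1).and (eventually_ge_atTop 1)).exists
  refine ⟨q, hq1, ?_⟩
  have hq1' : (1 : ℝ) ≤ q := by exact_mod_cast hq1
  have h2 : Real.log (36000 * ((q : ℝ) + 1)) ≤ ‖Real.log (36000 * ((q : ℝ) + 1))‖ :=
    Real.le_norm_self _
  have h3 : ‖id (36000 * ((q : ℝ) + 1))‖ = 36000 * ((q : ℝ) + 1) := by
    rw [id, Real.norm_of_nonneg (by positivity)]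
  rw [h3] at hq
  refine h2.trans (hq.trans ?_)
  have h4 : δ * Real.log 2 / 72000 * (36000 * ((q : ℝ) + 1))
      = δ * Real.log 2 * ((q + 1) / 2) := by ring
  rw [h4]
  have h5 : ((q : ℝ) + 1) / 2 ≤ q := by linarith
  calc δ * Real.log 2 * (((q : ℝ) + 1) / 2) ≤ δ * Real.log 2 * q :=
        mul_le_mul_of_nonneg_left h5 (by positivity)
    _ = δ * q * Real.log 2 := by ring

end Pool.Agent.EDX.H28
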