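import Pool.Agent.EDX.Stmts3

/-!
# Squad EDX (MP_74088a_nt), row VDM: the determinant of the `h_e` at the preimages of `4`
-/

set_option autoImplicit false

namespace Pool.Agent.EDX.H28

open Polynomial Finset Pool.Agent.EDG Pool.Agent.EDX Module

/-- the coefficient map `X ↦ b` -/
noncomputable def cb (b : ℂ) : ℤ[X] →+* ℂ := eval₂RingHom (Int.castRingHom ℂ) b

theorem eval_cb (b y : ℂ) (p : ℤ[X][X]) : eval y (p.map (cb b)) = ev b y p := by
  rw [eval_map]; rfl

/-- the iterate as a polynomial in `y` over `ℂ` -/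
noncomputable def FC (b : ℂ) (q : ℕ) : ℂ[X] := (Fit q).map (cb b)

theorem FC_zero (b : ℂ) : FC b 0 = X := by simp [FC, Fit]

theorem FC_succ (b : ℂ) (q : ℕ) : FC b (q + 1) = (FC b q).comp (X ^ 2 + C (2 * b) * X) := by
  have h1 : F.map (cb b) = X ^ 2 + C (2 * b) * X := by
    unfold F
    rw [Polynomial.map_add, Polynomial.map_pow, Polynomial.map_mul, map_X, map_C]
    congr 2
    simp [cb]
  unfold FC
  rw [Fit, map_comp, h1]

theorem quad_monic (b : ℂ) : (X ^ 2 + C (2 * b) * X : ℂ[X]).Monic ∧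
    (X ^ 2 + C (2 * b) * X : ℂ[X]).natDegree = 2 := by
  have h1 : (C (2 * b) * X : ℂ[X]).degree < (X ^ 2 : ℂ[X]).degree := by
    rw [degree_X_pow]
    exact (degree_C_mul_X_le _).trans_lt (by norm_num)
  refine ⟨(monic_X_pow 2).add_of_left h1, ?_⟩
  rw [natDegree_add_eq_left_of_degree_lt h1, natDegree_X_pow]

theorem FC_monic (b : ℂ) (q : ℕ) : (FC b q).Monic ∧ (FC b q).natDegree = 2 ^ q := by
  induction q with
  | zero => rw [FC_zero]; exact ⟨monic_X, by simp⟩
  | succ q ih =>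
    rw [FC_succ]
    obtain ⟨h1, h2⟩ := quad_monic b
    refine ⟨ih.1.comp h1 (by rw [h2]; norm_num), ?_⟩
    rw [natDegree_comp, ih.2, h2, pow_succ]

theorem FC_eval (b y : ℂ) (q : ℕ) : eval y (FC b q) = it b y q := by
  unfold FC
  rw [eval_cb, ev_Fit]

/-- `b + F^q(y) - w` as a polynomial in `y` -/
noncomputable def PC (b w : ℂ) (q : ℕ) : ℂ[X] := FC b q + C (b - w)

theorem PC_monic (b w : ℂ) (q : ℕ) : (PC b w q).Monic ∧ (PC b w q).natDegree = 2 ^ q := by
  have h1 : (C (b - w) : ℂ[X]).degree < (FC b q).degree := by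
    rw [degree_eq_natDegree (FC_monic b q).1.ne_zero, (FC_monic b q).2]
    refine degree_C_le.trans_lt ?_
    exact_mod_cast Nat.pos_of_ne_zero (by positivity)
  refine ⟨(FC_monic b q).1.add_of_left h1, ?_⟩
  unfold PC
  rw [natDegree_add_eq_left_of_degree_lt h1, (FC_monic b q).2]

theorem PC_eval (b w y : ℂ) (q : ℕ) : eval y (PC b w q) = b + it b y q - w := by
  unfold PC
  rw [eval_add, eval_C, FC_eval]; ring

theorem FC_deriv (b y : ℂ) (q : ℕ) :
    eval y (derivative (FC b q)) = ∏ j ∈ range q, (2 * (b + it b y j)) := by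
  induction q generalizing y with
  | zero => rw [FC_zero]; simp
  | succ q ih =>
    rw [FC_succ, derivative_comp, eval_mul, eval_comp, Finset.prod_range_succ']
    have h1 : eval y (X ^ 2 + C (2 * b) * X : ℂ[X]) = y ^ 2 + 2 * b * y := by simp
    have h2 : eval y (derivative (X ^ 2 + C (2 * b) * X : ℂ[X])) = 2 * (b + it b y 0) := by
      simp [it_zero]; ring
    rw [h1, h2, ih, mul_comm]
    congr 1
    exact prod_congr rfl fun j _ => by rw [it_succ']

theorem PC_deriv (b w y : ℂ) (q : ℕ) :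
    eval y (derivative (PC b w q)) = ∏ j ∈ range q, (2 * (b + it b y j)) := by
  unfold PC
  rw [derivative_add, derivative_C, add_zero, FC_deriv]

/-- the polynomial is the product over its zeros -/
theorem PC_eq (b w : ℂ) (q : ℕ) (ζ : Fin (2 ^ q) → ℂ) (hζ : Function.Injective ζ)
    (h4 : ∀ l, b + it b (ζ l) q = w) : PC b w q = Lagrange.nodal univ ζ := by
  rw [← sub_eq_zero]
  have hm := PC_monic b w q
  have hn1 : (Lagrange.nodal univ ζ).Monic := Lagrange.nodal_monic
  have hn2 : (Lagrange.nodal univ ζ).natDegree = 2 ^ q := by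
    rw [Lagrange.natDegree_nodal, card_univ, Fintype.card_fin]
  have hd : (PC b w q).degree = (Lagrange.nodal univ ζ).degree := by
    rw [degree_eq_natDegree hm.1.ne_zero, degree_eq_natDegree hn1.ne_zero, hm.2, hn2]
  refine eq_zero_of_natDegree_lt_card_of_eval_eq_zero _ hζ (fun l => ?_) ?_
  · rw [eval_sub, PC_eval, h4 l, Lagrange.eval_nodal_at_node (mem_univ l), sub_self, sub_zero]
  · rw [Fintype.card_fin]
    by_cases h0 : PC b w q - Lagrange.nodal univ ζ = 0
    · rw [h0, natDegree_zero]; positivity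
    · have h1 := degree_sub_lt_left hd hm.1.ne_zero (by rw [hm.1.leadingCoeff, hn1.leadingCoeff])
      rw [degree_eq_natDegree h0, degree_eq_natDegree hm.1.ne_zero, hm.2] at h1
      exact_mod_cast h1

/-- products of bounded nonnegative reals over a multiset -/
theorem mprod_le {α : Type} (s : Multiset α) (f : α → ℝ) (c : ℝ) (h0 : ∀ a ∈ s, 0 ≤ f a)
    (hc : ∀ a ∈ s, f a ≤ c) : (s.map f).prod ≤ c ^ Multiset.card s ∧ 0 ≤ (s.map f).prod := by
  induction s using Multiset.induction_on with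
  | empty => simp
  | cons a s ih =>
    have h1 := h0 a (Multiset.mem_cons_self a s)
    have h2 := hc a (Multiset.mem_cons_self a s)
    obtain ⟨i1, i2⟩ := ih (fun x hx => h0 x (Multiset.mem_cons_of_mem hx))
      (fun x hx => hc x (Multiset.mem_cons_of_mem hx))
    rw [Multiset.map_cons, Multiset.prod_cons, Multiset.card_cons, pow_succ, mul_comm (f a)]
    exact ⟨mul_le_mul i1 h2 h1 (pow_nonneg (h1.trans h2) _), mul_nonneg i2 h1⟩

theorem norm_mprod (s : Multiset ℂ) : ‖s.prod‖ = (s.map fun x => ‖x‖).prod := by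
  induction s using Multiset.induction_on with
  | empty => simp
  | cons a s ih => rw [Multiset.prod_cons, norm_mul, ih, Multiset.map_cons, Multiset.prod_cons]

/-- the product of the values of `b + F^j` over the zeros -/
theorem level_le {b : ℂ} (hb : b ∈ PP) (q : ℕ) (ζ : Fin (2 ^ q) → ℂ) (hζ : Function.Injective ζ)
    (h4 : ∀ l, b + it b (ζ l) q = 4) {j : ℕ} (hj : j < q) :
    ∏ l, ‖b + it b (ζ l) j‖ ≤ 6 ^ (2 ^ j) := by
  set P := PC b 0 j with hP
  have hPm := PC_monic b 0 j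
  have hsp := (IsAlgClosed.splits P).eq_prod_roots_of_monic hPm.1
  have hcard : Multiset.card P.roots = 2 ^ j := by
    rw [← hPm.2]
    exact (splits_iff_card_roots.1 (IsAlgClosed.splits P))
  have h1 : ∀ l, ‖b + it b (ζ l) j‖ = (P.roots.map fun η => ‖η - ζ l‖).prod := by
    intro l
    have e1 : b + it b (ζ l) j = eval (ζ l) P := by rw [hP, PC_eval, sub_zero]
    rw [e1]
    conv_lhs => rw [hsp]
    rw [eval_multiset_prod, norm_mprod, Multiset.map_map, Multiset.map_map]
    congr 1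
    refine Multiset.map_congr rfl fun η _ => ?_
    simp only [Function.comp_apply, eval_sub, eval_X, eval_C]
    exact norm_sub_rev _ _
  have h2 : ∏ l, ‖b + it b (ζ l) j‖ = (P.roots.map fun η => ∏ l, ‖η - ζ l‖).prod := by
    rw [Multiset.prod_map_prod]
    exact prod_congr rfl fun l _ => h1 l
  rw [h2, ← hcard]
  refine (mprod_le _ _ 6 (fun η _ => prod_nonneg fun l _ => norm_nonneg _) ?_).1
  intro η hη
  have h3 : b + it b η j = 0 := by
    have := (mem_roots'.1 hη).2
    rw [IsRoot.def, hP, PC_eval, sub_zero] at this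
    exact this
  have h5 : it b η j = -b := by linear_combination h3
  have h6 : it b η q = it b (-b) (q - j) := by
    have := it_add b η j (q - j)
    rw [h5, Nat.add_sub_cancel' hj.le] at this
    exact this
  have h7 : ∏ l, ‖η - ζ l‖ = ‖eval η (PC b 4 q)‖ := by
    rw [PC_eq b 4 q ζ hζ h4, Lagrange.eval_nodal, norm_prod]
  rw [h7, PC_eval, h6]
  have h8 := hb.2 (q - j)
  calc ‖b + it b (-b) (q - j) - 4‖ ≤ ‖b + it b (-b) (q - j)‖ + ‖(4 : ℂ)‖ := norm_sub_le _ _
    _ ≤ 2 + 4 := by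
      refine add_le_add h8 ?_
      norm_num
    _ = 6 := by norm_num

/-- the square of the Vandermonde product -/
theorem vsq {N : ℕ} (a : Fin N → Fin N → ℝ) (hs : ∀ i j, a i j = a j i) :
    (∏ i, ∏ j ∈ Ioi i, a i j) ^ 2 = ∏ i, ∏ j ∈ univ.erase i, a i j := by
  classical
  have h1 : ∀ i : Fin N, ∏ j ∈ univ.erase i, a i j
      = (∏ j ∈ Ioi i, a i j) * ∏ j ∈ Iio i, a i j := by
    intro i
    rw [← prod_union]
    · refine prod_congr ?_ fun _ _ => rfl
      ext j
      simp only [mem_erase, mem_univ, and_true, mem_union, mem_Ioi, mem_Iio]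
      exact ne_iff_lt_or_gt.trans or_comm
    · rw [Finset.disjoint_left]
      intro j hj1 hj2
      rw [mem_Ioi] at hj1
      rw [mem_Iio] at hj2
      exact absurd hj1 (lt_asymm hj2)
  have h2 : ∏ i, ∏ j ∈ Iio i, a i j = ∏ i, ∏ j ∈ Ioi i, a i j := by
    rw [prod_comm' (t' := univ) (s' := fun j => Ioi j)
      (fun x y => by simp only [mem_univ, true_and, mem_Iio, mem_Ioi, and_true])]
    exact prod_congr rfl fun i _ => prod_congr rfl fun j _ => hs j i
  simp only [h1]
  rw [prod_mul_distrib, h2, sq]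

theorem hC_props (b : ℂ) (e : ℕ) :
    ((h e).map (cb b)).natDegree = e ∧ ((h e).map (cb b)).Monic :=
  ⟨by rw [(h_monic e).natDegree_map, h_natDegree], (h_monic e).map _⟩

/-- **Row VDM.** -/
theorem vdm : VdmStmt := by
  intro b hb q ζ hζ h4
  have hdet : (Matrix.of fun e l : Fin (2 ^ q) => hv (2 ^ q) b (ζ l) e).det
      = (Matrix.vandermonde ζ).det := by
    rw [Matrix.det_eval_matrixOfPolynomials_eq_det_vandermonde ζ
      (fun e : Fin (2 ^ q) => (h (e : ℕ)).map (cb b)) (fun e => (hC_props b e).1)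
      (fun e => (hC_props b e).2), ← Matrix.det_transpose]
    congr 1
    ext i j
    simp only [Matrix.transpose_apply, Matrix.of_apply, hv, eval_cb]
  rw [hdet]
  refine ⟨Matrix.det_vandermonde_ne_zero_iff.2 hζ, ?_⟩
  have h1 : ‖(Matrix.vandermonde ζ).det‖ ^ 2 = ∏ l, ∏ l' ∈ univ.erase l, ‖ζ l - ζ l'‖ := by
    rw [Matrix.det_vandermonde, norm_prod]
    simp only [norm_prod]
    rw [← vsq (fun l l' => ‖ζ l - ζ l'‖) (fun l l' => norm_sub_rev _ _)]
    congr 1
    exact prod_congr rfl fun i _ => prod_congr rfl fun j _ => norm_sub_rev _ _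
  have h2 : ∀ l, ∏ l' ∈ univ.erase l, ‖ζ l - ζ l'‖ = ∏ j ∈ range q, (2 * ‖b + it b (ζ l) j‖) := by
    intro l
    have e1 := Lagrange.eval_nodal_derivative_eval_node_eq (v := ζ) (mem_univ l)
    rw [← PC_eq b 4 q ζ hζ h4, PC_deriv, Lagrange.eval_nodal] at e1
    rw [← norm_prod, ← e1, norm_prod]
    refine prod_congr rfl fun j _ => ?_
    rw [norm_mul]
    norm_num
  have h3 : ∏ l, ∏ l' ∈ univ.erase l, ‖ζ l - ζ l'‖
      = ∏ j ∈ range q, (2 ^ (2 ^ q) * ∏ l, ‖b + it b (ζ l) j‖) := by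
    simp only [h2]
    rw [prod_comm]
    refine prod_congr rfl fun j _ => ?_
    rw [prod_mul_distrib, prod_const, card_univ, Fintype.card_fin]
  rw [h1, h3]
  calc ∏ j ∈ range q, ((2 : ℝ) ^ (2 ^ q) * ∏ l, ‖b + it b (ζ l) j‖)
      ≤ ∏ j ∈ range q, ((2 : ℝ) ^ (2 ^ q) * 6 ^ (2 ^ j)) := by
        refine prod_le_prod (fun j _ => mul_nonneg (by positivity)
          (prod_nonneg fun l _ => norm_nonneg _)) fun j hj => ?_
        exact mul_le_mul_of_nonneg_left (level_le hb q ζ hζ h4 (mem_range.1 hj)) (by positivity)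
    _ = ((2 : ℝ) ^ (2 ^ q)) ^ q * 6 ^ (∑ j ∈ range q, 2 ^ j) := by
        rw [prod_mul_distrib, prod_const, card_range, prod_pow_eq_pow_sum]
    _ ≤ ((2 : ℝ) ^ (2 ^ q)) ^ q * 6 ^ (2 ^ q) := by
        refine mul_le_mul_of_nonneg_left (pow_le_pow_right₀ (by norm_num) ?_) (by positivity)
        have := Nat.geomSum_eq (le_refl 2) q
        rw [this]
        exact (Nat.div_le_self _ _).trans (Nat.sub_le _ _)
    _ = ((6 : ℝ) * 2 ^ q) ^ (2 ^ q) := by
        rw [mul_pow, ← pow_mul, ← pow_mul, mul_comm (2 ^ q) q, mul_comm]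

end Pool.Agent.EDX.H28
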